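import Pool.Agent.W544.PG.Defs8

/-!
# The first fundamental theorem for products of special orthogonal groups, all degrees
(definitions and statements of the parts)
-/

open Matrix Finset Module

namespace Pool.Agent.W544.FF

open Pool.Agent.W544.PG

noncomputable section

/-! ### Gaussian moments -/

/-- the number of perfect matchings of the slots compatible with `I` -/
def wick {X : Type} [DecidableEq X] (k : ℕ) (I : Fin k → X) : ℝ :=
  ((univ.filter fun σ : Fin k → Fin k => (∀ j, σ (σ j) = j) ∧ (∀ j, σ j ≠ j) ∧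
    ∀ j, I (σ j) = I j).card : ℝ)

/-- the moments of the standard normal distribution -/
def mom : ℕ → ℝ
  | 0 => 1
  | 1 => 0
  | (a + 2) => ((a : ℝ) + 1) * mom a

/-- (GA1) -/
def S_ga1 : Prop := ∃ μ : MeasureTheory.Measure ℝ, MeasureTheory.IsProbabilityMeasure μ ∧
  (∀ U : Set ℝ, IsOpen U → U.Nonempty → 0 < μ U) ∧
  (∀ a : ℕ, MeasureTheory.Integrable (fun x : ℝ => x ^ a) μ) ∧ ∀ a : ℕ, ∫ x, x ^ a ∂μ = mom a

/-- (GA2) -/
def S_ga2 : Prop := ∀ (X : Type) [Fintype X] [DecidableEq X] (k : ℕ) (I : Fin k → X),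
  wick k I = ∏ x, mom (univ.filter fun j => I j = x).card

/-- (GAU) -/
def S_gau : Prop := ∀ (X : Type) [Fintype X] [DecidableEq X] (k : ℕ) (a : (Fin k → X) → ℝ),
  (∀ x : X → ℝ, 0 ≤ ∑ I, a I * ∏ j, x (I j)) → (∃ x : X → ℝ, 0 < ∑ I, a I * ∏ j, x (I j)) →
  0 < ∑ I, a I * wick k I

/-! ### Real orthogonal invariants -/

/-- (SVD) -/
def S_svd : Prop := ∀ (n r : ℕ) (c : Fin n → Fin r) (A : Matrix (Fin n) (Fin n) ℝ), BD c A →
  A.det ≠ 0 → ∃ (O₁ O₂ : Matrix (Fin n) (Fin n) ℝ) (δ : Fin n → ℝ), BD c O₁ ∧ BD c O₂ ∧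
    O₁ᵀ * O₁ = 1 ∧ O₂ᵀ * O₂ = 1 ∧ (∀ a, 0 ≤ δ a) ∧ A = O₁ * Matrix.diagonal δ * O₂

/-- invariant under the real orthogonal group -/
def InvO {n r k : ℕ} (c : Fin n → Fin r) (t : (Fin k → Fin n) → ℝ) : Prop :=
  ∀ R : Matrix (Fin n) (Fin n) ℝ, Rᵀ * R = 1 → BD c R → pull R t = t

/-- (POS) -/
def S_pos : Prop := ∀ (n r k : ℕ) (c : Fin n → Fin r) (t : (Fin k → Fin n) → ℝ), InvO c t →
  ∀ A : Matrix (Fin n) (Fin n) ℝ, BD c A → 0 ≤ ∑ J, t J * pull A t J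

/-- products of pairings, for given colours of the slots -/
def genO {n r k : ℕ} (R : Type) [CommRing R] (c : Fin n → Fin r) (σ : Fin k → Fin k)
    (f : Fin k → Fin r) : (Fin k → Fin n) → R :=
  fun J => (if ∀ j, c (J j) = f j then 1 else 0) * ∏ j with j < σ j, if J j = J (σ j) then 1 else 0

/-- fixed-point free involutions -/
def Mat (k : ℕ) (σ : Fin k → Fin k) : Prop := (∀ j, σ (σ j) = j) ∧ ∀ j, σ j ≠ j

/-- (GIN) -/
def S_gin : Prop := ∀ (n r k : ℕ) (c : Fin n → Fin r) (σ : Fin k → Fin k) (f : Fin k → Fin r),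
  Mat k σ → InvO c (genO ℝ c σ f)

/-- (ONB) -/
def S_onb : Prop := ∀ (n r k : ℕ) (c : Fin n → Fin r) (t : (Fin k → Fin n) → ℝ), InvO c t →
  t ∈ Submodule.span ℝ {g | ∃ σ f, Mat k σ ∧ g = genO ℝ c σ f}

/-- a real matrix as a complex matrix -/
def rC {n : ℕ} (R : Matrix (Fin n) (Fin n) ℝ) : Matrix (Fin n) (Fin n) ℂ :=
  R.map fun z : ℝ => (z : ℂ)

/-- (ONC) -/
def S_onc : Prop := ∀ (n r k : ℕ) (c : Fin n → Fin r) (t : (Fin k → Fin n) → ℂ),
  (∀ R : Matrix (Fin n) (Fin n) ℝ, Rᵀ * R = 1 → BD c R → pull (rC R) t = t) →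
  t ∈ Submodule.span ℂ {g | ∃ σ f, Mat k σ ∧ g = genO ℂ c σ f}

/-! ### The special orthogonal group -/

/-- the character of the orthogonal group given by the determinants of the blocks in `S` -/
def chr {n r : ℕ} (c : Fin n → Fin r) (S : Finset (Fin r)) (R : Matrix (Fin n) (Fin n) ℝ) : ℝ :=
  ∏ i ∈ S, (bl c i R).det

/-- (SPL) -/
def S_spl : Prop := ∀ (n r k : ℕ) (c : Fin n → Fin r) (t : (Fin k → Fin n) → ℂ),
  (∀ R : Matrix (Fin n) (Fin n) ℝ, Rᵀ * R = 1 → BD c R → (∀ i, (bl c i R).det = 1) →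
    pull (rC R) t = t) →
  t ∈ Submodule.span ℂ {u : (Fin k → Fin n) → ℂ | ∃ S : Finset (Fin r),
    ∀ R : Matrix (Fin n) (Fin n) ℝ, Rᵀ * R = 1 → BD c R →
      pull (rC R) u = ((chr c S R : ℝ) : ℂ) • u}

/-- the determinant form: the product of the determinants of the blocks in `S`, on the slots
`g b` -/
def dt {n r : ℕ} {R Y : Type} [CommRing R] [DecidableEq Y] (c : Fin n → Fin r)
    (S : Finset (Fin r)) (emb : Fin n → Y) {k : ℕ} (g : {b : Fin n // c b ∈ S} → Fin k)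
    (J : Fin k → Y) : R :=
  Matrix.det (Matrix.of fun x y : {b : Fin n // c b ∈ S} =>
    if c y.1 = c x.1 ∧ J (g x) = emb y.1 then (1 : R) else 0)

/-- (DEQ) the determinant form on all slots is equivariant -/
def S_deq : Prop := ∀ (n r k : ℕ) (c : Fin n → Fin r) (S : Finset (Fin r))
  (g : {b : Fin n // c b ∈ S} → Fin k), Function.Bijective g →
  ∀ R : Matrix (Fin n) (Fin n) ℝ, Rᵀ * R = 1 → BD c R →
    pull (rC R) (fun J => (dt c S id g J : ℂ)) = ((chr c S R : ℝ) : ℂ) • fun J => dt c S id g J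

/-- products of pairings and determinants -/
def genS {n r k : ℕ} (R : Type) [CommRing R] (c : Fin n → Fin r) (σ : Fin k → Fin k)
    (f : Fin k → Fin r) (S : Finset (Fin r)) (g : {b : Fin n // c b ∈ S} → Fin k) :
    (Fin k → Fin n) → R :=
  fun J => genO R c σ f J * dt c S id g J

/-- the conditions on the data of `genS` -/
def OkS {n r k : ℕ} (c : Fin n → Fin r) (σ : Fin k → Fin k) (S : Finset (Fin r))
    (g : {b : Fin n // c b ∈ S} → Fin k) : Prop :=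
  (∀ j, σ (σ j) = j) ∧ Function.Injective g ∧ ∀ j, σ j = j ↔ ∃ b, g b = j

/-- (EQV) -/
def S_eqv : Prop := ∀ (n r k : ℕ) (c : Fin n → Fin r) (S : Finset (Fin r))
  (u : (Fin k → Fin n) → ℂ), (∀ R : Matrix (Fin n) (Fin n) ℝ, Rᵀ * R = 1 → BD c R →
    pull (rC R) u = ((chr c S R : ℝ) : ℂ) • u) →
  u ∈ Submodule.span ℂ {t | ∃ σ f g, OkS c σ S g ∧ t = genS ℂ c σ f S g}

/-- (FTC) the first fundamental theorem -/
def S_ftc : Prop := ∀ (n r k : ℕ) (c : Fin n → Fin r) (t : (Fin k → Fin n) → ℂ),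
  (∀ Z : Matrix (Fin n) (Fin n) ℂ, Zᵀ = -Z → BD c Z → act Z t = 0) →
  t ∈ Submodule.span ℂ {t | ∃ σ f S g, OkS c σ S g ∧ t = genS ℂ c σ f S g}

/-! ### Classes on products -/

/-- products of algebraic classes on some factors, of the form `Q` on pairs of equal factors and
of the determinants of the `T_i`, `i ∈ S`, on the factors `g b` -/
def algD {K : Type} [Field K] {n r s m : ℕ} (Q : Matrix (Fin n) (Fin n) K) (c : Fin n → Fin r)
    (d : Fin s → Fin r) (a : Fin m → Fin r) : Submodule K ((Fin m → Fin s ⊕ Fin n) → K) :=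
  Submodule.span K {t | ∃ (σ : Fin m → Fin m) (ν : Fin m → Fin s → K) (S : Finset (Fin r))
    (g : {b : Fin n // c b ∈ S} → Fin m), (∀ j, σ (σ j) = j) ∧ (∀ j, a (σ j) = a j) ∧
    (∀ j b, ν j b ≠ 0 → d b = a j) ∧ Function.Injective g ∧ (∀ b, σ (g b) = g b) ∧
    (∀ b, a (g b) = c b.1) ∧
    ∀ J, t J = (∏ j with σ j = j ∧ ∀ b, g b ≠ j, Sum.elim (ν j) (fun _ => 0) (J j)) *
      (∏ j with j < σ j,
        if Sum.elim d c (J j) = a j then Matrix.fromBlocks 0 0 0 Q (J j) (J (σ j)) else 0) *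
      dt c S Sum.inr g J}

/-- (HDC) complex forms in orthonormal coordinates -/
def S_hdc : Prop := ∀ (n r s m : ℕ) (c : Fin n → Fin r) (d : Fin s → Fin r) (a : Fin m → Fin r)
  (t : (Fin m → Fin s ⊕ Fin n) → ℂ),
  (∀ Z : Matrix (Fin n) (Fin n) ℂ, Zᵀ = -Z → BD c Z → act (fromBlocks 0 0 0 Z) t = 0) →
  (∀ J, t J ≠ 0 → ∀ j, Sum.elim d c (J j) = a j) →
  t ∈ algD (1 : Matrix (Fin n) (Fin n) ℂ) c d a

/-- (HDK) forms over a subfield, any quadratic form -/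
def S_hdk : Prop := ∀ (K : Type) [Field K] (ι : K →+* ℂ) (n r s m : ℕ) (c : Fin n → Fin r)
  (d : Fin s → Fin r) (a : Fin m → Fin r) (Q : Matrix (Fin n) (Fin n) K)
  (u : Matrix (Fin n) (Fin n) ℂ), BD c Q → BD c u → uᵀ * Q.map ι * u = 1 →
  ∀ t : (Fin m → Fin s ⊕ Fin n) → K,
  (∀ Z : Matrix (Fin n) (Fin n) ℂ, Zᵀ * Q.map ι + Q.map ι * Z = 0 → BD c Z →
    act (fromBlocks 0 0 0 Z) (fun J => ι (t J)) = 0) →
  (∀ J, t J ≠ 0 → ∀ j, Sum.elim d c (J j) = a j) →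
  t ∈ algD Q c d a

/-- (CND) the classes in `algD` are killed by skew operators -/
def S_cnd : Prop := ∀ (K : Type) [Field K] (n r s m : ℕ) (c : Fin n → Fin r)
  (d : Fin s → Fin r) (a : Fin m → Fin r) (Q y : Matrix (Fin n) (Fin n) K), BD c Q → BD c y →
  Qᵀ = Q → yᵀ * Q + Q * y = 0 → (∀ i, ∑ b with c b = i, y b b = 0) → ∀ t ∈ algD Q c d a,
  actK (fromBlocks 0 0 0 y) t = 0

/-- (ORB) an orthonormal basis compatible with the decomposition -/
def S_orb : Prop := ∀ (n r : ℕ) (c : Fin n → Fin r) (Q : Matrix (Fin n) (Fin n) ℂ), Qᵀ = Q →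
  BD c Q → Q.det ≠ 0 → ∃ u : Matrix (Fin n) (Fin n) ℂ, BD c u ∧ uᵀ * Q * u = 1

/-- (TRZ) the trace of a block of a skew operator -/
def S_trz : Prop := ∀ (K : Type) [Field K] [CharZero K] (n r : ℕ) (c : Fin n → Fin r)
  (Q y : Matrix (Fin n) (Fin n) K), BD c Q → BD c y → Qᵀ = Q → Q.det ≠ 0 →
  yᵀ * Q + Q * y = 0 → ∀ i, ∑ b with c b = i, y b b = 0

end

end Pool.Agent.W544.FF
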