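import Pool.Agent.W544.FF.Asm
import Pool.Agent.W287.FF.GA1
import Pool.Agent.W381.FF.Ga2
import Pool.Agent.W962.FF.GAU
import Pool.Agent.W925.FF.Svd
import Pool.Agent.W688.FF.POS
import Pool.Agent.W701.FF.Gin
import Pool.Agent.W462.FF.Onb
import Pool.Agent.W160.FF.ONC
import Pool.Agent.W654.FF.Spl
import Pool.Agent.W52.FF.DEQ
import Pool.Agent.W237.FF.Eqv
import Pool.Agent.W494.FF.HDC
import Pool.Agent.W125.FF.HDK
import Pool.Agent.W839.FF.TRO

/-!
# The first fundamental theorem for products of special orthogonal groups in all degrees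
-/

open Matrix Finset Module

namespace Pool.Agent.W544.FF

open Pool.Agent.W544.PG

theorem onbF : S_onb :=
  W462.FF.onb (W962.FF.gau W287.FF.ga1 W381.FF.ga2) (W688.FF.POS.pos W925.FF.Svd.svd)
    W701.FF.Gin.gin

theorem oncF : S_onc := W160.FF.ONC.onc onbF

theorem eqvF : S_eqv := W237.FF.eqv oncF W52.FF.DEQ.deq

/-- the first fundamental theorem: forms killed by the sum of the `so(n_i)` are combinations of
products of pairings and determinants -/
theorem ftcF : S_ftc := ftc W654.FF.spl eqvF

theorem hdcF : S_hdc := W494.FF.hdc ftcF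

theorem hdkF : S_hdk := W125.FF.HDK.hdk W216.TP.mk hdcF

end Pool.Agent.W544.FF
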