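import Pool.Agent.W544.FF.Defs

/-!
# Symmetric powers (definitions and statements of the parts)
-/

open Matrix Finset Module

namespace Pool.Agent.W544.FF

open Pool.Agent.W544.PG

noncomputable section

/-- product of the algebraic classes `ν j` on the factors `j` with `σ j = j` outside the range of
`g`, of the form `Q` on the pairs `j`, `σ j` of equal factors and of the determinants of the `T_i`,
`i ∈ S`, on the factors `g b` -/
def gnr {K : Type} [Field K] {n r s m : ℕ} (Q : Matrix (Fin n) (Fin n) K) (c : Fin n → Fin r)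
    (d : Fin s → Fin r) (a : Fin m → Fin r) (σ : Fin m → Fin m) (ν : Fin m → Fin s → K)
    (S : Finset (Fin r)) (g : {b : Fin n // c b ∈ S} → Fin m) (J : Fin m → Fin s ⊕ Fin n) : K :=
  (∏ j with σ j = j ∧ ∀ b, g b ≠ j, Sum.elim (ν j) (fun _ => 0) (J j)) *
    (∏ j with j < σ j,
      if Sum.elim d c (J j) = a j then Matrix.fromBlocks 0 0 0 Q (J j) (J (σ j)) else 0) *
    dt c S Sum.inr g J

/-- the conditions on the data of `gnr` -/
def OkG {K : Type} [Field K] {n r s m : ℕ} (c : Fin n → Fin r) (d : Fin s → Fin r)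
    (a : Fin m → Fin r) (σ : Fin m → Fin m) (ν : Fin m → Fin s → K) (S : Finset (Fin r))
    (g : {b : Fin n // c b ∈ S} → Fin m) : Prop :=
  (∀ j, σ (σ j) = j) ∧ (∀ j, a (σ j) = a j) ∧ (∀ j b, ν j b ≠ 0 → d b = a j) ∧
    Function.Injective g ∧ (∀ b, σ (g b) = g b) ∧ ∀ b, a (g b) = c b.1

/-- Combinations of products of algebraic classes on single factors, of the transcendental parts
of the diagonals (given by the form `Q`) on pairs of equal factors, and of the determinants of
some of the `T_i` with `i ∈ D` -/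
def algE {K : Type} [Field K] {n r s m : ℕ} (Q : Matrix (Fin n) (Fin n) K) (c : Fin n → Fin r)
    (d : Fin s → Fin r) (a : Fin m → Fin r) (D : Finset (Fin r)) :
    Submodule K ((Fin m → Fin s ⊕ Fin n) → K) :=
  Submodule.span K {t | ∃ (σ : Fin m → Fin m) (ν : Fin m → Fin s → K) (S : Finset (Fin r))
    (g : {b : Fin n // c b ∈ S} → Fin m), OkG c d a σ ν S g ∧ S ⊆ D ∧ t = gnr Q c d a σ ν S g}

/-- (GPM) stability under permutations of equal factors -/
def S_gpm : Prop := ∀ (K : Type) [Field K] (n r s m : ℕ) (c : Fin n → Fin r) (d : Fin s → Fin r)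
  (a : Fin m → Fin r) (Q : Matrix (Fin n) (Fin n) K) (D : Finset (Fin r)) (π : Equiv.Perm (Fin m)),
  BD c Q → Qᵀ = Q → (∀ j, a (π j) = a j) → ∀ t ∈ algE Q c d a D,
  (fun J => t (fun j => J (π j))) ∈ algE Q c d a D

/-- (GSP) the support of `gnr` -/
def S_gsp : Prop := ∀ (K : Type) [Field K] (n r s m : ℕ) (c : Fin n → Fin r) (d : Fin s → Fin r)
  (a : Fin m → Fin r) (Q : Matrix (Fin n) (Fin n) K) (σ : Fin m → Fin m) (ν : Fin m → Fin s → K)
  (S : Finset (Fin r)) (g : {b : Fin n // c b ∈ S} → Fin m), BD c Q → OkG c d a σ ν S g →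
  ∀ J, gnr Q c d a σ ν S g J ≠ 0 → (∀ j, Sum.elim d c (J j) = a j) ∧
    ∀ j, (∃ b, J j = Sum.inr b) ↔ (σ j ≠ j ∨ ∃ b, g b = j)

/-- (GAN) antisymmetry in the slots of one determinant -/
def S_gan : Prop := ∀ (K : Type) [Field K] (n r s m : ℕ) (c : Fin n → Fin r) (d : Fin s → Fin r)
  (a : Fin m → Fin r) (Q : Matrix (Fin n) (Fin n) K) (σ : Fin m → Fin m) (ν : Fin m → Fin s → K)
  (S : Finset (Fin r)) (g : {b : Fin n // c b ∈ S} → Fin m), OkG c d a σ ν S g →
  ∀ b b' : {b : Fin n // c b ∈ S}, b ≠ b' → c b.1 = c b'.1 → ∀ J,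
  gnr Q c d a σ ν S g (fun j => J (Equiv.swap (g b) (g b') j)) = -gnr Q c d a σ ν S g J

/-- The transcendental part `T_i` occurs in `J` in less than `rank T_i` of the blocks of factors
given by `f`, for all `i` not in `D`. -/
def Few {n r s m k : ℕ} (c : Fin n → Fin r) (f : Fin m → Fin k) (D : Finset (Fin r))
    (J : Fin m → Fin s ⊕ Fin n) : Prop :=
  ∀ i, i ∉ D → (univ.filter fun x : Fin k => ∃ j b, f j = x ∧ J j = Sum.inr b ∧ c b = i).card <
    (univ.filter fun b => c b = i).card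

/-- (GSY) classes symmetric in the factors of each block -/
def S_gsy : Prop := ∀ (K : Type) [Field K] [CharZero K] (n r s m k : ℕ) (c : Fin n → Fin r)
  (d : Fin s → Fin r) (a : Fin m → Fin r) (f : Fin m → Fin k) (Q : Matrix (Fin n) (Fin n) K)
  (D : Finset (Fin r)), BD c Q → Qᵀ = Q → (∀ j j', f j = f j' → a j = a j') →
  ∀ t ∈ algE Q c d a univ, (∀ π : Equiv.Perm (Fin m), (∀ j, f (π j) = f j) →
    ∀ J, t (fun j => J (π j)) = t J) → (∀ J, t J ≠ 0 → Few c f D J) → t ∈ algE Q c d a D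

end

end Pool.Agent.W544.FF
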