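import Pool.Agent.W544.FF.Final0
import Pool.Agent.W544.FF.Defs2
import Pool.Agent.W863.FF.CND

/-!
# Products of symmetric powers of surfaces: assembly
-/

open Matrix Finset Module

namespace Pool.Agent.W544.FF

open Pool.Agent.W544.PG

noncomputable section

theorem algD_le {K : Type} [Field K] {n r s m : ℕ} (Q : Matrix (Fin n) (Fin n) K)
    (c : Fin n → Fin r) (d : Fin s → Fin r) (a : Fin m → Fin r) :
    algD Q c d a ≤ algE Q c d a univ := by
  refine Submodule.span_mono ?_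
  rintro t ⟨σ, ν, S, g, h1, h2, h3, h4, h5, h6, h7⟩
  exact ⟨σ, ν, S, g, ⟨h1, h2, h3, h4, h5, h6⟩, Finset.subset_univ S, funext h7⟩

theorem algE_le {K : Type} [Field K] {n r s m : ℕ} (Q : Matrix (Fin n) (Fin n) K)
    (c : Fin n → Fin r) (d : Fin s → Fin r) (a : Fin m → Fin r) (D : Finset (Fin r)) :
    algE Q c d a D ≤ algD Q c d a := by
  refine Submodule.span_mono ?_
  rintro t ⟨σ, ν, S, g, ⟨h1, h2, h3, h4, h5, h6⟩, _, rfl⟩
  exact ⟨σ, ν, S, g, h1, h2, h3, h4, h5, h6, fun J => rfl⟩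

/-- Sums of products of classes in `algE` (combinations of products of algebraic classes, of
transcendental parts of diagonals and of determinants of the `T_i`, `i ∈ D`) on the product of the
surfaces and of Hodge classes in `H^l(A)` (alternating `l`-linear forms on `H^1`). -/
def algXE {n r s m w : ℕ} (T : HS n) (W : HW w) (c : Fin n → Fin r) (d : Fin s → Fin r)
    (a : Fin m → Fin r) (D : Finset (Fin r)) (l : ℕ) :
    Submodule ℚ ((Fin m → Fin s ⊕ Fin n) → (Fin l → Fin w) → ℚ) :=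
  Submodule.span ℚ {f | ∃ α ∈ algE T.Q c d a D, ∃ β : (Fin l → Fin w) → ℚ, W.IsHodge β ∧
    IsAlt β ∧ f = fun J L => α J * β L}

variable {n r w s m l k : ℕ} {c : Fin n → Fin r} {p q : Fin r → ℕ}

/-- Hodge classes on products of the surfaces, symmetric in the factors of each block -/
theorem hcE (hgsy : S_gsy) {T : HS n} (hB : T.Big c p q) (d : Fin s → Fin r)
    (a : Fin m → Fin r) (f : Fin m → Fin k) (D : Finset (Fin r))
    (hf : ∀ j j', f j = f j' → a j = a j') (t : (Fin m → Fin s ⊕ Fin n) → ℚ)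
    (hta : ∀ J, t J ≠ 0 → ∀ j, Sum.elim d c (J j) = a j)
    (hsym : ∀ π : Equiv.Perm (Fin m), (∀ j, f (π j) = f j) →
      ∀ J, t (fun j => J (π j)) = t J)
    (hfew : ∀ J, t J ≠ 0 → Few c f D J) (ht : T.IsHodgeS t) : t ∈ algE T.Q c d a D :=
  hgsy ℚ n r s m k c d a f T.Q D hB.bQ T.symm hf t
    (algD_le _ _ _ _ (hcD hdkF W839.FF.orb hB d a t ht hta)) hsym hfew

/-- **Hodge classes on `Sym S_(a 1) × ... × A`.** -/
theorem hcAE (hgsy : S_gsy) {T : HS n} (hB : T.Big c p q)
    (W : HW w) (hpl : l = 0 ∨ ∀ i, 2 ≤ p i) (d : Fin s → Fin r)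
    (a : Fin m → Fin r) (f : Fin m → Fin k) (D : Finset (Fin r))
    (hf : ∀ j j', f j = f j' → a j = a j')
    (t : (Fin m → Fin s ⊕ Fin n) → (Fin l → Fin w) → ℚ)
    (hta : ∀ J L, t J L ≠ 0 → ∀ j, Sum.elim d c (J j) = a j)
    (hsym : ∀ π : Equiv.Perm (Fin m), (∀ j, f (π j) = f j) →
      ∀ J, t (fun j => J (π j)) = t J)
    (hfew : ∀ J L, t J L ≠ 0 → ∀ i, i ∉ D →
      (univ.filter fun y : Fin k => ∃ j b, f j = y ∧ J j = Sum.inr b ∧ c b = i).card <
        2 * p i + q i) (halt : ∀ J, IsAlt (t J)) :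
    IsHodgeX T W t ↔ t ∈ algXE T W c d a D l := by
  constructor
  · intro ht
    have hsep := W143.PG.sep n w s m l T W t ht (by
      rcases hpl with h | h
      · exact Or.inl h
      · exact Or.inr (keyF hB h W s))
    have h1 := W748.PG5.ten _ _ (algE T.Q c d a D) (W.hodge l) t
      (fun L => hcE hgsy hB d a f D hf _ (fun J hJ => hta J L hJ)
        (fun π hπ J => congrFun (hsym π hπ J) L)
        (fun J hJ i hi => by
          rw [hB.rk i]
          exact hfew J L hJ i hi) (hsep.1 L))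
      (fun J => ⟨hsep.2 J, halt J⟩)
    have h2 : {f : (Fin m → Fin s ⊕ Fin n) → (Fin l → Fin w) → ℚ | ∃ α ∈ algE T.Q c d a D,
        ∃ β ∈ W.hodge l, f = fun x y => α x * β y} =
        {f | ∃ α ∈ algE T.Q c d a D, ∃ β : (Fin l → Fin w) → ℚ, W.IsHodge β ∧ IsAlt β ∧
          f = fun J L => α J * β L} := by
      ext f
      constructor
      · rintro ⟨α, hα, β, hβ, rfl⟩
        exact ⟨α, hα, β, hβ.1, hβ.2, rfl⟩
      · rintro ⟨α, hα, β, hβ1, hβ2, rfl⟩
        exact ⟨α, hα, β, ⟨hβ1, hβ2⟩, rfl⟩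
    unfold algXE
    rw [← h2]
    exact h1
  · intro ht
    clear hta halt hsym hfew
    have hcnv := W374.PG.cnv n r w s m l T W c d a hB.bQ hB.bx
    induction ht using Submodule.span_induction with
    | mem f h =>
      obtain ⟨α, hα, β, hβ, _, rfl⟩ := h
      exact hcnv.2 α β (hodge_algD W863.FF.cnd W839.FF.trz hB d a α (algE_le _ _ _ _ _ hα)) hβ
    | zero =>
      intro u v a b _ _ _
      simp
    | add f g _ _ hf hg =>
      intro u v a b h1 h2 h3
      have h4 := hf u v a b h1 h2 h3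
      have h5 := hg u v a b h1 h2 h3
      simp only [Pi.add_apply, Rat.cast_add, add_mul, Finset.sum_add_distrib]
      rw [h4, h5, add_zero]
    | smul z f _ hf =>
      intro u v a b h1 h2 h3
      have h4 := hf u v a b h1 h2 h3
      simp only [Pi.smul_apply, smul_eq_mul, Rat.cast_mul, mul_assoc, ← Finset.mul_sum] at h4 ⊢
      rw [h4, mul_zero]

/-! ### Tate classes -/

section tate
variable {K : Type} [Field K] {Γ : Type} [Group Γ] [TopologicalSpace Γ] {T : GR K Γ n}

/-- **Tate classes on products of symmetric powers of surfaces.** -/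
theorem tateE (hgsy : S_gsy) (hT : T.Big c p q) (d : Fin s → Fin r) (a : Fin m → Fin r)
    (f : Fin m → Fin k) (D : Finset (Fin r)) (hf : ∀ j j', f j = f j' → a j = a j')
    (t : (Fin m → Fin s ⊕ Fin n) → K) (hta : ∀ J, t J ≠ 0 → ∀ j, Sum.elim d c (J j) = a j)
    (hsym : ∀ π : Equiv.Perm (Fin m), (∀ j, f (π j) = f j) →
      ∀ J, t (fun j => J (π j)) = t J)
    (hfew : ∀ J, t J ≠ 0 → ∀ i, i ∉ D →
      (univ.filter fun y : Fin k => ∃ j b, f j = y ∧ J j = Sum.inr b ∧ c b = i).card <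
        2 * p i + q i) :
    IsTate (T.ρS s) t ↔ t ∈ algE T.Q c d a D := by
  have hD := tateD hdkF W863.FF.cnd W839.FF.trz hT d a t hta
  constructor
  · intro ht
    haveI : CharZero K := (RingHom.charZero_iff T.ι.injective).2 inferInstance
    exact hgsy K n r s m k c d a f T.Q D hT.bQ T.symm hf t (algD_le _ _ _ _ (hD.1 ht)) hsym
      (fun J hJ i hi => by
        rw [hT.rk i]
        exact hfew J hJ i hi)
  · intro ht
    exact hD.2 (algE_le _ _ _ _ _ ht)

end tate

end

end Pool.Agent.W544.FF
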