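import Pool.Agent.W544.FF.Defs
import Pool.Agent.W544.PG.Final5
import Pool.Agent.W864.PG.SO2

/-!
# All powers of surfaces: assembly
-/

open Matrix Finset Module

namespace Pool.Agent.W544.FF

open Pool.Agent.W544.PG
open Pool.Agent.W565.K3.Ext (pat mk exists_mk)

noncomputable section

theorem ftc (hspl : S_spl) (heqv : S_eqv) : S_ftc := by
  intro n r k c t ht
  have h1 := hspl n r k c t (fun R hR hRc hdet => by
    refine W864.PG.so2 n r k c t ht (rC R) ?_ (hRc.map (by simp)) ?_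
    · have h2 : (rC R)ᵀ * rC R = rC (Rᵀ * R) := by
        ext i j
        simp [rC, Matrix.mul_apply]
      rw [h2, hR]
      ext i j
      by_cases h : i = j <;> simp [rC, Matrix.one_apply, h]
    · intro i
      have h2 : bl c i (rC R) = (bl c i R).map Complex.ofRealHom :=
        bl_mapR c i Complex.ofRealHom R
      rw [h2]
      have h3 : ((bl c i R).map Complex.ofRealHom).det = Complex.ofRealHom (bl c i R).det :=
        (RingHom.map_det Complex.ofRealHom (bl c i R)).symm
      rw [h3, hdet, map_one])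
  refine Submodule.span_le.2 ?_ h1
  rintro u ⟨S, hu⟩
  refine Submodule.span_mono ?_ (heqv n r k c S u hu)
  rintro _ ⟨σ, f, g, hok, rfl⟩
  exact ⟨σ, f, S, g, hok, rfl⟩

variable {n r w s m l : ℕ} {T : HS n} {c : Fin n → Fin r} {p q : Fin r → ℕ}

/-- Hodge classes are killed by the sum of the `so(T_i)`. -/
theorem act_hodge (hB : T.Big c p q) (t : (Fin m → Fin s ⊕ Fin n) → ℚ) (ht : T.IsHodgeS t)
    (Z : Matrix (Fin n) (Fin n) ℂ) (hZ : Zᵀ * mC T.Q + mC T.Q * Z = 0) (hZc : BD c Z) :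
    act (fromBlocks 0 0 0 Z) (cx t) = 0 := by
  funext I
  obtain ⟨K', hK'⟩ := exists_mk I rfl
  have h1 := W160.TP.TSL.act_mk Z (cx t) (pat I) K'
  have h2 := ((mem_hT T Z).1 (mainPF hB Z hZ hZc)).2 _ _ (W74.PG.hodge_slice T t ht (pat I)) K'
  rw [hK'] at h1
  exact h1.trans h2

/-- Hodge classes on products of the surfaces -/
theorem hcD (hhdk : S_hdk) (horb : S_orb) (hB : T.Big c p q) (d : Fin s → Fin r)
    (a : Fin m → Fin r) (t : (Fin m → Fin s ⊕ Fin n) → ℚ) (ht : T.IsHodgeS t)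
    (hta : ∀ J, t J ≠ 0 → ∀ j, Sum.elim d c (J j) = a j) : t ∈ algD T.Q c d a := by
  obtain ⟨u, hu, huQ⟩ := horb n r c (mC T.Q) (by rw [mC_T, T.symm]) hB.bQ.mC (by
    rw [det_mC]
    exact_mod_cast W74.PG.det_ne T)
  exact hhdk ℚ (Rat.castHom ℂ) n r s m c d a T.Q u hB.bQ hu huQ t
    (fun Z hZ hZc => act_hodge hB t ht Z hZ hZc) hta

theorem dt_map {K : Type} [Field K] (ι : K →+* ℂ) {Y : Type} [DecidableEq Y] (S : Finset (Fin r))
    (emb : Fin n → Y) {k : ℕ} (g : {b : Fin n // c b ∈ S} → Fin k) (J : Fin k → Y) :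
    ι (dt c S emb g J) = dt c S emb g J := by
  unfold dt
  rw [RingHom.map_det]
  congr 1
  ext x y
  simp only [RingHom.mapMatrix_apply, Matrix.map_apply, Matrix.of_apply]
  split_ifs <;> simp

/-- complexification of the classes in `algD` -/
theorem algD_map {K : Type} [Field K] (ι : K →+* ℂ) (Q : Matrix (Fin n) (Fin n) K)
    (d : Fin s → Fin r) (a : Fin m → Fin r) (t : (Fin m → Fin s ⊕ Fin n) → K)
    (ht : t ∈ algD Q c d a) : (fun J => ι (t J)) ∈ algD (Q.map ι) c d a := by
  unfold algD at ht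
  induction ht using Submodule.span_induction with
  | mem t h =>
    obtain ⟨σ, ν, S, g, h1, h2, h3, h4, h5, h6, h7⟩ := h
    apply Submodule.subset_span
    refine ⟨σ, fun j b => ι (ν j b), S, g, h1, h2, fun j b h => h3 j b fun h0 => h (by
      change ι (ν j b) = 0
      rw [h0, map_zero]), h4, h5, h6, fun J => ?_⟩
    change ι (t J) = _
    rw [h7, map_mul, map_mul, map_prod, map_prod, dt_map]
    have e1 : ∀ (j : Fin m) (z : Fin s ⊕ Fin n), ι (Sum.elim (ν j) (fun _ => 0) z) =
        Sum.elim (fun b => ι (ν j b)) (fun _ => 0) z := by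
      intro j z
      rcases z with x | x
      · rfl
      · exact map_zero ι
    have e2 : ∀ z z' : Fin s ⊕ Fin n, ι ((fromBlocks 0 0 0 Q : Matrix (Fin s ⊕ Fin n)
        (Fin s ⊕ Fin n) K) z z') = (fromBlocks 0 0 0 (Q.map ι) : Matrix (Fin s ⊕ Fin n)
        (Fin s ⊕ Fin n) ℂ) z z' := by
      intro z z'
      rcases z with x | x <;> rcases z' with y | y <;> simp
    congr 2
    · exact Finset.prod_congr rfl fun j _ => e1 j (J j)
    · refine Finset.prod_congr rfl fun j _ => ?_
      rw [apply_ite ι, map_zero, e2]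
  | zero =>
    have h0 : (fun J : Fin m → Fin s ⊕ Fin n => ι ((0 : (Fin m → Fin s ⊕ Fin n) → K) J)) = 0 := by
      funext J
      simp
    rw [h0]
    exact Submodule.zero_mem _
  | add x y _ _ hx hy =>
    have h0 : (fun J => ι ((x + y) J)) = (fun J => ι (x J)) + fun J => ι (y J) := by
      funext J
      simp
    rw [h0]
    exact Submodule.add_mem _ hx hy
  | smul z x _ hx =>
    have h0 : (fun J => ι ((z • x) J)) = ι z • fun J => ι (x J) := by
      funext J
      simp
    rw [h0]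
    exact Submodule.smul_mem _ _ hx

/-- the classes in `algD` are Hodge classes -/
theorem hodge_algD (hcnd : S_cnd) (htrz : S_trz) (hB : T.Big c p q) (d : Fin s → Fin r)
    (a : Fin m → Fin r) (t : (Fin m → Fin s ⊕ Fin n) → ℚ) (ht : t ∈ algD T.Q c d a) :
    T.IsHodgeS t := by
  intro v e he hne
  have hdet : (mC T.Q).det ≠ 0 := by
    rw [det_mC]
    exact_mod_cast W74.PG.det_ne T
  have hs : (mC T.Q)ᵀ = mC T.Q := by rw [mC_T, T.symm]
  have h1 := hcnd ℂ n r s m c d a (mC T.Q) T.x hB.bQ.mC hB.bx hs T.skew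
    (htrz ℂ n r c (mC T.Q) T.x hB.bQ.mC hB.bx hs hdet T.skew) (fun J => ((t J : ℚ) : ℂ))
    (algD_map (Rat.castHom ℂ) T.Q d a t ht)
  have h2 := W374.PG.ev_act (T.xS s) t v (fun j => (e j : ℂ)) he
  have h3 : ∑ J, act (T.xS s) (cx t) J * ∏ j, v j (J j) = 0 := by
    refine Finset.sum_eq_zero fun J _ => ?_
    have h4 : act (T.xS s) (cx t) J = 0 := congrFun h1 J
    rw [h4, zero_mul]
  rw [h3] at h2
  refine (mul_eq_zero.1 h2).resolve_left ?_
  rw [← Int.cast_sum]
  exact_mod_cast hne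

/-- Sums of products of classes on the product of the surfaces `S_(a 1), ..., S_(a m)` in `algD`
(products of algebraic classes, transcendental parts of diagonals, and determinants of the `T_i`)
and of Hodge classes in `H^l(A)` (alternating `l`-linear forms on `H^1`). -/
def algXD (T : HS n) (W : HW w) (c : Fin n → Fin r) (d : Fin s → Fin r) (a : Fin m → Fin r)
    (l : ℕ) : Submodule ℚ ((Fin m → Fin s ⊕ Fin n) → (Fin l → Fin w) → ℚ) :=
  Submodule.span ℚ {f | ∃ α ∈ algD T.Q c d a, ∃ β : (Fin l → Fin w) → ℚ, W.IsHodge β ∧ IsAlt β ∧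
    f = fun J L => α J * β L}

/-- **Hodge classes on `S_(a 1) × ... × S_(a m) × A`.** -/
theorem hcAD (hhdk : S_hdk) (horb : S_orb) (hcnd : S_cnd) (htrz : S_trz) (hB : T.Big c p q)
    (W : HW w) (hpl : l = 0 ∨ ∀ i, 2 ≤ p i) (d : Fin s → Fin r)
    (a : Fin m → Fin r) (t : (Fin m → Fin s ⊕ Fin n) → (Fin l → Fin w) → ℚ)
    (hta : ∀ J L, t J L ≠ 0 → ∀ j, Sum.elim d c (J j) = a j) (halt : ∀ J, IsAlt (t J)) :
    IsHodgeX T W t ↔ t ∈ algXD T W c d a l := by
  constructor
  · intro ht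
    have hsep := W143.PG.sep n w s m l T W t ht (by
      rcases hpl with h | h
      · exact Or.inl h
      · exact Or.inr (keyF hB h W s))
    have h1 := W748.PG5.ten _ _ (algD T.Q c d a) (W.hodge l) t
      (fun L => hcD hhdk horb hB d a _ (hsep.1 L) (fun J hJ => hta J L hJ))
      (fun J => ⟨hsep.2 J, halt J⟩)
    have h2 : {f : (Fin m → Fin s ⊕ Fin n) → (Fin l → Fin w) → ℚ | ∃ α ∈ algD T.Q c d a,
        ∃ β ∈ W.hodge l, f = fun x y => α x * β y} =
        {f | ∃ α ∈ algD T.Q c d a, ∃ β : (Fin l → Fin w) → ℚ, W.IsHodge β ∧ IsAlt β ∧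
          f = fun J L => α J * β L} := by
      ext f
      constructor
      · rintro ⟨α, hα, β, hβ, rfl⟩
        exact ⟨α, hα, β, hβ.1, hβ.2, rfl⟩
      · rintro ⟨α, hα, β, hβ1, hβ2, rfl⟩
        exact ⟨α, hα, β, ⟨hβ1, hβ2⟩, rfl⟩
    unfold algXD
    rw [← h2]
    exact h1
  · intro ht
    clear hta halt
    have hcnv := W374.PG.cnv n r w s m l T W c d a hB.bQ hB.bx
    induction ht using Submodule.span_induction with
    | mem f h =>
      obtain ⟨α, hα, β, hβ, _, rfl⟩ := h
      exact hcnv.2 α β (hodge_algD hcnd htrz hB d a α hα) hβ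
    | zero =>
      intro u v a b _ _ _
      simp
    | add f g _ _ hf hg =>
      intro u v a b h1 h2 h3
      have h4 := hf u v a b h1 h2 h3
      have h5 := hg u v a b h1 h2 h3
      simp only [Pi.add_apply, Rat.cast_add, add_mul, Finset.sum_add_distrib]
      rw [h4, h5, add_zero]
    | smul z f _ hf =>
      intro u v a b h1 h2 h3
      have h4 := hf u v a b h1 h2 h3
      simp only [Pi.smul_apply, smul_eq_mul, Rat.cast_mul, mul_assoc, ← Finset.mul_sum] at h4 ⊢
      rw [h4, mul_zero]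

/-! ### Tate classes -/

section tate
variable {K : Type} [Field K] {Γ : Type} [Group Γ] [TopologicalSpace Γ] {T : GR K Γ n}

/-- **Tate classes on all products of surfaces.** -/
theorem tateD (hhdk : S_hdk) (hcnd : S_cnd) (htrz : S_trz) (hT : T.Big c p q)
    (d : Fin s → Fin r) (a : Fin m → Fin r) (t : (Fin m → Fin s ⊕ Fin n) → K)
    (hta : ∀ J, t J ≠ 0 → ∀ j, Sum.elim d c (J j) = a j) :
    IsTate (T.ρS s) t ↔ t ∈ algD T.Q c d a := by
  constructor
  · intro ht
    obtain ⟨u, hub, huQ, -⟩ := id hT.red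
    refine hhdk K T.ι n r s m c d a T.Q u hT.bQ hub huQ t (fun Z hZ hZc => ?_) hta
    have h1 := (W160.TP.TSL.tsl K Γ n s m T t).1 ht
    have h2 := act_LC (T := T) (blkR s) (fun J => T.ι (t J)) (fun y hy => by
      have h3 := h1 y hy
      funext J
      have h4 := congrArg T.ι (congrFun h3 J)
      rw [Pi.zero_apply, map_zero] at h4
      rw [Pi.zero_apply, ← h4]
      unfold act actK
      rw [map_sum]
      refine Finset.sum_congr rfl fun j _ => ?_
      rw [map_sum]
      refine Finset.sum_congr rfl fun l _ => ?_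
      rw [map_mul]
      congr 1
      have e2 : ∀ z z' : Fin s ⊕ Fin n, (fromBlocks 0 0 0 (y.map T.ι) : Matrix (Fin s ⊕ Fin n)
          (Fin s ⊕ Fin n) ℂ) z z' = T.ι ((fromBlocks 0 0 0 y : Matrix (Fin s ⊕ Fin n)
          (Fin s ⊕ Fin n) K) z z') := by
        intro z z'
        rcases z with x | x <;> rcases z' with y | y <;> simp
      exact e2 _ _)
    exact h2 Z ((LC_iff hT Z).2 ⟨hZ, hZc⟩)
  · intro ht
    haveI : CharZero K := (RingHom.charZero_iff T.ι.injective).2 inferInstance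
    have hL := W723.TP.tbd K Γ n r T c hT.bQ hT.bρ hT.red.det
    refine (W160.TP.TSL.tsl K Γ n s m T t).2 fun y hy => ?_
    exact hcnd K n r s m c d a T.Q y hT.bQ (hL y hy).1 T.symm (hL y hy).2
      (htrz K n r c T.Q y hT.bQ (hL y hy).1 T.symm hT.red.det (hL y hy).2) t ht

end tate

end

end Pool.Agent.W544.FF
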