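import Pool.Agent.W544.FF.Defs2
import Pool.Agent.W544.PG.Defs5

/-!
# The generalized Hodge conjecture for products of symmetric powers of surfaces
(statements of the parts)
-/

open Matrix Finset Module

namespace Pool.Agent.W544.FF

open Pool.Agent.W544.PG

noncomputable section

/-- symmetric in the slots of each block of `f` -/
def SymF {X R : Type} {k b : ℕ} (f : Fin k → Fin b) (s : (Fin k → X) → R) : Prop :=
  ∀ π : Equiv.Perm (Fin k), (∀ j, f (π j) = f j) → ∀ J, s (fun j => J (π j)) = s J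

/-- the number of blocks of colour `i` -/
def nb {r k b : ℕ} (f : Fin k → Fin b) (a : Fin k → Fin r) (i : Fin r) : ℕ :=
  (univ.filter fun x : Fin b => ∃ j, f j = x ∧ a j = i).card

/-- (KGS) block-symmetric invariants, few blocks: no determinants -/
def S_kgs : Prop := ∀ (n r m b : ℕ) (c : Fin n → Fin r) (a : Fin m → Fin r) (f : Fin m → Fin b),
  (∀ j j', f j = f j' → a j = a j') →
  (∀ i, nb f a i = 0 ∨ nb f a i < (univ.filter fun y => c y = i).card) →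
  ∀ L : (Fin m → Fin n) → ℂ,
  (∀ Z : Matrix (Fin n) (Fin n) ℂ, Zᵀ = -Z → BD c Z → act Z L = 0) → Supp c a L → SymF f L →
  L ∈ Submodule.span ℂ {g : (Fin m → Fin n) → ℂ | ∃ σ f', Mat m σ ∧ g = genO ℂ c σ f'}

/-- (G2S) -/
def S_g2s : Prop := ∀ (n r k b : ℕ) (c : Fin n → Fin r) (a : Fin k → Fin r) (f : Fin k → Fin b)
  (p : Fin r → ℕ) (X : Matrix (Fin n) (Fin n) ℂ), Xᵀ = -X → X * X * X = X → BD c X →
  (∀ i, ∑ y with c y = i, (X * X) y y = 2 * (p i : ℂ)) → (∀ j j', f j = f j' → a j = a j') →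
  (∀ i, nb f a i ≤ p i ∧ 2 * nb f a i < (univ.filter fun y => c y = i).card ∨ nb f a i = 0) →
  ∀ M : Submodule ℂ ((Fin k → Fin n) → ℂ), (∀ s ∈ M, Supp c a s) → (∀ s ∈ M, SymF f s) →
  (∀ Z : Matrix (Fin n) (Fin n) ℂ, Zᵀ = -Z → BD c Z → ∀ s ∈ M, act Z s ∈ M) →
  (∀ s ∈ M, Trl s) → M ≠ ⊥ → ∃ s ∈ M, s ≠ 0 ∧ act X s = (k : ℂ) • s

/-- (G1S) -/
def S_g1s : Prop := ∀ (n r k b l : ℕ) (c : Fin n → Fin r) (a : Fin k → Fin r) (f : Fin k → Fin b)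
  (p : Fin r → ℕ) (X : Matrix (Fin n) (Fin n) ℂ), Xᵀ = -X → X * X * X = X → BD c X →
  (∀ i, ∑ y with c y = i, (X * X) y y = 2 * (p i : ℂ)) → (∀ j j', f j = f j' → a j = a j') →
  (∀ i, nb f a i ≤ p i ∧ 2 * nb f a i < (univ.filter fun y => c y = i).card ∨ nb f a i = 0) →
  ∀ M : Submodule ℂ ((Fin k → Fin n) → ℂ), (∀ s ∈ M, Supp c a s) → (∀ s ∈ M, SymF f s) →
  (∀ Z : Matrix (Fin n) (Fin n) ℂ, Zᵀ = -Z → BD c Z → ∀ s ∈ M, act Z s ∈ M) →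
  (∀ e : ℤ, (k : ℤ) - 2 * l + 1 < |e| → ∀ s ∈ M, act X s = (e : ℂ) • s → s = 0) →
  M ≤ insC2 c a l

/-- (GQS) from orthonormal coordinates to `T` -/
def S_gqs : Prop := ∀ (n r k b l : ℕ) (T : HS n) (c : Fin n → Fin r) (a : Fin k → Fin r)
  (f : Fin k → Fin b) (p q : Fin r → ℕ), BD c T.Q → BD c T.x →
  (∀ i, ∑ y with c y = i, (T.x * T.x) y y = 2 * (p i : ℂ)) →
  (∀ i, (univ.filter fun y => c y = i).card = 2 * p i + q i ∧ 0 < q i) →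
  (∀ j j', f j = f j' → a j = a j') → (∀ i, nb f a i ≤ p i) →
  ∀ W : Submodule ℚ ((Fin k → Fin n) → ℚ), (∀ w ∈ W, Supp c a w) → (∀ w ∈ W, SymF f w) →
  (∀ Z : Matrix (Fin n) (Fin n) ℂ, Zᵀ * mC T.Q + mC T.Q * Z = 0 → BD c Z →
    ∀ w ∈ cspan W, act Z w ∈ cspan W) →
  (∀ e : ℤ, (k : ℤ) - 2 * l + 1 < |e| → ∀ w ∈ cspan W, act T.x w = (e : ℂ) • w → w = 0) →
  W ≤ T.ins2 c a l

/-- (GHTS) from `T` to the total cohomology -/
def S_ghts : Prop := ∀ (n r s m b k j : ℕ) (T : HS n) (c : Fin n → Fin r) (d : Fin s → Fin r)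
  (cd : Fin s → ℕ) (a : Fin m → Fin r) (f : Fin m → Fin b) (p : Fin r → ℕ),
  (∀ i i', f i = f i' → a i = a i') →
  (∀ (k' l : ℕ) (a' : Fin k' → Fin r) (f' : Fin k' → Fin b),
    (∀ i i', f' i = f' i' → a' i = a' i') → (∀ i, nb f' a' i ≤ p i) →
    ∀ W : Submodule ℚ ((Fin k' → Fin n) → ℚ), (∀ w ∈ W, Supp c a' w) → (∀ w ∈ W, SymF f' w) →
    T.IsSub W →
    (∀ e : ℤ, (k' : ℤ) - 2 * l + 1 < |e| → ∀ w ∈ cspan W, act T.x w = (e : ℂ) • w → w = 0) →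
    W ≤ T.ins2 c a' l) →
  ∀ W : Submodule ℚ ((Fin m → Fin s ⊕ Fin n) → ℚ), (∀ w ∈ W, SymF f w) →
  (∀ w ∈ cspan W, act (T.xS s) w ∈ cspan W) →
  (∀ w ∈ W, ∀ J, w J ≠ 0 → (∀ i, Sum.elim d c (J i) = a i) ∧
    ∑ i, Sum.elim cd (fun _ => 1) (J i) = k ∧
    ∀ i, (univ.filter fun x : Fin b => ∃ y z, f y = x ∧ J y = Sum.inr z ∧ c z = i).card ≤ p i) →
  (∀ e : ℤ, (k : ℤ) - j < |e| → ∀ w ∈ cspan W, act (T.xS s) w = (e : ℂ) • w → w = 0) →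
  W ≤ T.coniv2 c d cd a j

end

end Pool.Agent.W544.FF
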