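import Pool.Agent.W544.FF.Final
import Pool.Agent.W544.FF.Defs3
import Pool.Agent.W544.PG.Final3
import Pool.Agent.W977.FF.G1S
import Pool.Agent.W883.FF.Gqs
import Pool.Agent.W721.FF.GHTS

/-!
# The generalized Hodge conjecture for products of symmetric powers of surfaces (assembly)
-/

open Matrix Finset Module

namespace Pool.Agent.W544.FF

open Pool.Agent.W544.PG

noncomputable section

variable {n r : ℕ} {T : HS n} {c : Fin n → Fin r} {p q : Fin r → ℕ}

/-- The generalized Hodge conjecture for products of symmetric powers. -/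
theorem ghcS (hg2s : S_g2s) (hB : T.Big c p q) {s m k j b : ℕ} (d : Fin s → Fin r)
    (cd : Fin s → ℕ) (a : Fin m → Fin r) (f : Fin m → Fin b)
    (hf : ∀ i i', f i = f i' → a i = a i')
    (W : Submodule ℚ ((Fin m → Fin s ⊕ Fin n) → ℚ))
    (hsym : ∀ w ∈ W, ∀ π : Equiv.Perm (Fin m), (∀ i, f (π i) = f i) →
      ∀ J, w (fun i => J (π i)) = w J)
    (hsub : ∀ w ∈ cspan W, act (T.xS s) w ∈ cspan W)
    (hdeg : ∀ w ∈ W, InDeg c d cd a k w)
    (hp : ∀ w ∈ W, ∀ J, w J ≠ 0 → ∀ i,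
      (univ.filter fun x : Fin b => ∃ y z, f y = x ∧ J y = Sum.inr z ∧ c z = i).card ≤ p i)
    (hlev : ∀ e : ℤ, (k : ℤ) - j < |e| →
      ∀ w ∈ cspan W, act (T.xS s) w = (e : ℂ) • w → w = 0) :
    W ≤ T.coniv2 c d cd a j := by
  refine W721.FF.Ghts.ghts n r s m b k j T c d cd a f p hf ?_ W hsym hsub ?_ hlev
  · intro k' l a' f' hf' ha' W' hW' hW'sym hW'sub hW'lev
    refine W883.FF.gqs (W977.FF.g1s hg2s) n r k' b l T c a' f' p q hB.bQ hB.bx hB.tr
      (fun i => ⟨hB.rk i, Big_q hB i⟩) hf' ha' W' hW' hW'sym ?_ hW'lev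
    intro Z hZ hZc w hw
    exact W101.PG.g0p n k' T W' hW'sub Z (mainPF hB Z hZ hZc) w hw
  · intro w hw J hJ
    exact ⟨(hdeg w hw J hJ).1, (hdeg w hw J hJ).2, hp w hw J hJ⟩

end

end Pool.Agent.W544.FF
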