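import Pool.Agent.W544.FF.Asm2
import Pool.Agent.W240.FF.GPM
import Pool.Agent.W654.FF.Gsp
import Pool.Agent.W346.FF.GSY

/-!
# Hodge and Tate classes on products of symmetric powers of surfaces
-/

open Matrix Finset Module

namespace Pool.Agent.W544.FF

open Pool.Agent.W544.PG

theorem gsyF : S_gsy := W346.FF.gsy W240.FF.gpm W654.FF.Gsp.gsp W654.FF.Gsp.gan

variable {n r w s m l k : ℕ} {c : Fin n → Fin r} {p q : Fin r → ℕ}

/-- **Hodge classes on `Sym S_(a 1) × ... × A`.** -/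
theorem hcAF {T : HS n} (hB : T.Big c p q)
    (W : HW w) (hpl : l = 0 ∨ ∀ i, 2 ≤ p i) (d : Fin s → Fin r)
    (a : Fin m → Fin r) (f : Fin m → Fin k) (D : Finset (Fin r))
    (hf : ∀ j j', f j = f j' → a j = a j')
    (t : (Fin m → Fin s ⊕ Fin n) → (Fin l → Fin w) → ℚ)
    (hta : ∀ J L, t J L ≠ 0 → ∀ j, Sum.elim d c (J j) = a j)
    (hsym : ∀ π : Equiv.Perm (Fin m), (∀ j, f (π j) = f j) →
      ∀ J, t (fun j => J (π j)) = t J)
    (hfew : ∀ J L, t J L ≠ 0 → ∀ i, i ∉ D →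
      (univ.filter fun y : Fin k => ∃ j b, f j = y ∧ J j = Sum.inr b ∧ c b = i).card <
        2 * p i + q i) (halt : ∀ J, IsAlt (t J)) :
    IsHodgeX T W t ↔ t ∈ algXE T W c d a D l :=
  hcAE gsyF hB W hpl d a f D hf t hta hsym hfew halt

/-- **Tate classes on products of symmetric powers of surfaces.** -/
theorem tateEF {K : Type} [Field K] {Γ : Type} [Group Γ] [TopologicalSpace Γ] {T : GR K Γ n}
    (hT : T.Big c p q) (d : Fin s → Fin r) (a : Fin m → Fin r)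
    (f : Fin m → Fin k) (D : Finset (Fin r)) (hf : ∀ j j', f j = f j' → a j = a j')
    (t : (Fin m → Fin s ⊕ Fin n) → K) (hta : ∀ J, t J ≠ 0 → ∀ j, Sum.elim d c (J j) = a j)
    (hsym : ∀ π : Equiv.Perm (Fin m), (∀ j, f (π j) = f j) →
      ∀ J, t (fun j => J (π j)) = t J)
    (hfew : ∀ J, t J ≠ 0 → ∀ i, i ∉ D →
      (univ.filter fun y : Fin k => ∃ j b, f j = y ∧ J j = Sum.inr b ∧ c b = i).card <
        2 * p i + q i) :
    IsTate (T.ρS s) t ↔ t ∈ algE T.Q c d a D :=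
  tateE gsyF hT d a f D hf t hta hsym hfew

end Pool.Agent.W544.FF
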