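import Pool.Agent.W544.FF.Final
import Pool.Agent.W544.FF.Defs3

/-!
# Block-symmetric invariants with few blocks
-/

open Matrix Finset Module

namespace Pool.Agent.W544.FF

open Pool.Agent.W544.PG

noncomputable section

/-- forget the empty summand -/
def pr0 {n : ℕ} : Fin 0 ⊕ Fin n → Fin n := Sum.elim (fun x => x.elim0) id

theorem genO_eq {n r m : ℕ} (c : Fin n → Fin r) (a : Fin m → Fin r) (σ : Fin m → Fin m)
    (hσ : ∀ j, σ (σ j) = j) (hfix : ∀ j, σ j ≠ j) (ha : ∀ j, a (σ j) = a j) (K : Fin m → Fin n) :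
    (∏ j with j < σ j, if c (K j) = a j then (if K j = K (σ j) then (1 : ℂ) else 0) else 0) =
      genO ℂ c σ a K := by
  unfold genO
  by_cases h : ∀ j, j < σ j → c (K j) = a j ∧ K j = K (σ j)
  · have h1 : ∀ j, c (K j) = a j := by
      intro j
      rcases lt_or_gt_of_ne (hfix j) with h2 | h2
      · have h3 := h (σ j) (by rw [hσ]; exact h2)
        rw [hσ] at h3
        rw [← h3.2, h3.1, ha]
      · exact (h j h2).1
    rw [if_pos h1, one_mul]
    refine Finset.prod_congr rfl fun j _ => ?_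
    rw [if_pos (h1 j)]
  · push Not at h
    obtain ⟨j, hj, h1⟩ := h
    rw [Finset.prod_eq_zero (i := j) (Finset.mem_filter.2 ⟨Finset.mem_univ j, hj⟩)]
    · by_cases h2 : c (K j) = a j
      · rw [Finset.prod_eq_zero (i := j) (Finset.mem_filter.2 ⟨Finset.mem_univ j, hj⟩), mul_zero]
        rw [if_neg (h1 h2)]
      · rw [if_neg (fun h3 => h2 (h3 j)), zero_mul]
    · by_cases h2 : c (K j) = a j
      · rw [if_pos h2, if_neg (h1 h2)]
      · rw [if_neg h2]

theorem kgs : S_kgs := by
  classical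
  intro n r m b c a f hf hnb L hact hsupp hsym
  obtain ⟨L', hL'⟩ : ∃ L' : (Fin m → Fin 0 ⊕ Fin n) → ℂ, ∀ J, L' J = L (fun j => pr0 (J j)) :=
    ⟨_, fun _ => rfl⟩
  obtain ⟨d, hd⟩ : ∃ d : Fin 0 → Fin r, d = fun x => x.elim0 := ⟨_, rfl⟩
  have hel : ∀ z : Fin 0 ⊕ Fin n, Sum.elim d c z = c (pr0 z) := by
    intro z
    rcases z with z | z
    · exact z.elim0
    · rfl
  have hcol : ∀ J, L' J ≠ 0 → ∀ j, Sum.elim d c (J j) = a j := by
    intro J hJ j
    rw [hL'] at hJ
    rw [hel]
    exact hsupp _ hJ j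
  have hD1 : L' ∈ algD (1 : Matrix (Fin n) (Fin n) ℂ) c d a := by
    refine hdcF n r 0 m c d a L' (fun Z hZ hZc => ?_) hcol
    funext J
    have h1 := congrFun (hact Z hZ hZc) (fun j => pr0 (J j))
    rw [Pi.zero_apply] at h1 ⊢
    rw [← h1]
    unfold act
    refine Finset.sum_congr rfl fun j _ => ?_
    rw [Fintype.sum_sum_type, Finset.univ_eq_empty, Finset.sum_empty, zero_add]
    refine Finset.sum_congr rfl fun l _ => ?_
    have h2 : (fromBlocks 0 0 0 Z : Matrix (Fin 0 ⊕ Fin n) (Fin 0 ⊕ Fin n) ℂ) (Sum.inr l) (J j) =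
        Z l (pr0 (J j)) := by
      rcases h3 : J j with z | z
      · exact z.elim0
      · simp [pr0]
    rw [h2, hL']
    congr 2
    funext i
    by_cases h3 : i = j
    · subst h3
      rw [Function.update_self, Function.update_self]
      rfl
    · rw [Function.update_of_ne h3, Function.update_of_ne h3]
  obtain ⟨D, hD⟩ : ∃ D : Finset (Fin r),
      D = univ.filter fun i => (univ.filter fun y => c y = i).card = 0 := ⟨_, rfl⟩
  have hE : L' ∈ algE (1 : Matrix (Fin n) (Fin n) ℂ) c d a D := by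
    refine gsyF ℂ n r 0 m b c d a f 1 D (fun x y h => ?_) Matrix.transpose_one hf L'
      (algD_le _ _ _ _ hD1) (fun π hπ J => ?_) (fun J hJ i hi => ?_)
    · exact Matrix.one_apply_ne fun h1 => h (by rw [h1])
    · rw [hL', hL']
      exact hsym π hπ (fun j => pr0 (J j))
    · have hi' : (univ.filter fun y => c y = i).card ≠ 0 := by
        intro h
        apply hi
        rw [hD]
        exact Finset.mem_filter.2 ⟨Finset.mem_univ _, h⟩
      have h1 : (univ.filter fun x : Fin b => ∃ j y, f j = x ∧ J j = Sum.inr y ∧ c y = i) ⊆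
          univ.filter fun x : Fin b => ∃ j, f j = x ∧ a j = i := by
        intro x hx
        obtain ⟨j, y, h2, h3, h4⟩ := (Finset.mem_filter.1 hx).2
        refine Finset.mem_filter.2 ⟨Finset.mem_univ _, j, h2, ?_⟩
        have h5 := hcol J hJ j
        rw [h3] at h5
        exact h5.symm.trans h4
      have h2 := Finset.card_le_card h1
      rcases hnb i with h3 | h3
      · have h4 : (univ.filter fun x : Fin b => ∃ j, f j = x ∧ a j = i).card = 0 := h3
        rw [h4] at h2
        exact lt_of_le_of_lt h2 (Nat.pos_of_ne_zero hi')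
      · exact lt_of_le_of_lt h2 h3
  -- back to forms on `ℂ^n`
  obtain ⟨Φ, hΦ⟩ : ∃ Φ : ((Fin m → Fin 0 ⊕ Fin n) → ℂ) →ₗ[ℂ] ((Fin m → Fin n) → ℂ),
      ∀ t K, Φ t K = t (fun j => Sum.inr (K j)) :=
    ⟨LinearMap.funLeft ℂ ℂ (fun (K : Fin m → Fin n) j => (Sum.inr (K j) : Fin 0 ⊕ Fin n)),
      fun _ _ => rfl⟩
  have hL : Φ L' = L := by
    funext K
    rw [hΦ, hL']
    rfl
  rw [← hL]
  have hmap : (algE (1 : Matrix (Fin n) (Fin n) ℂ) c d a D).map Φ ≤
      Submodule.span ℂ {g : (Fin m → Fin n) → ℂ | ∃ σ f', Mat m σ ∧ g = genO ℂ c σ f'} := by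
    unfold algE
    rw [Submodule.map_span_le]
    rintro _ ⟨σ, ν, S, g, ⟨h1, h2, h3, h4, h5, h6⟩, hSD, rfl⟩
    have hem : IsEmpty {y : Fin n // c y ∈ S} := by
      refine ⟨fun y => ?_⟩
      have h7 := hSD y.2
      rw [hD] at h7
      have h8 := (Finset.mem_filter.1 h7).2
      rw [Finset.card_eq_zero] at h8
      have h9 : y.1 ∈ (univ.filter fun z => c z = c y.1) :=
        Finset.mem_filter.2 ⟨Finset.mem_univ _, rfl⟩
      rw [h8] at h9
      exact absurd h9 (Finset.notMem_empty _)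
    by_cases hfix : ∃ j, σ j = j
    · obtain ⟨j, hj⟩ := hfix
      have h7 : Φ (gnr 1 c d a σ ν S g) = 0 := by
        funext K
        rw [hΦ]
        unfold gnr
        rw [Finset.prod_eq_zero (i := j) (Finset.mem_filter.2 ⟨Finset.mem_univ j, hj,
          fun y => (hem.false y).elim⟩) rfl, zero_mul, zero_mul]
        rfl
      rw [h7]
      exact Submodule.zero_mem _
    · push Not at hfix
      refine Submodule.subset_span ⟨σ, a, ⟨h1, hfix⟩, ?_⟩
      funext K
      rw [hΦ, ← genO_eq c a σ h1 hfix h2 K]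
      unfold gnr
      have h7 : (univ.filter fun j => σ j = j ∧ ∀ y, g y ≠ j) = ∅ := by
        rw [Finset.filter_eq_empty_iff]
        intro j _ h8
        exact hfix j h8.1
      have h8 : dt (R := ℂ) c S (Sum.inr : Fin n → Fin 0 ⊕ Fin n) g
          (fun j => Sum.inr (K j)) = 1 := by
        unfold dt
        exact Matrix.det_isEmpty
      rw [h7, Finset.prod_empty, one_mul, h8, mul_one]
      refine Finset.prod_congr rfl fun j _ => ?_
      rw [Sum.elim_inr, fromBlocks_apply₂₂, Matrix.one_apply]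
  exact hmap ⟨L', hE, rfl⟩

end

end Pool.Agent.W544.FF
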