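import Pool.Agent.W544.FF.Asm3
import Pool.Agent.W544.FF.Kgs
import Pool.Agent.W736.FF.G2S

/-!
# The generalized Hodge conjecture for products of symmetric powers of surfaces
-/

open Matrix Finset Module

namespace Pool.Agent.W544.FF

open Pool.Agent.W544.PG

variable {n r : ℕ} {T : HS n} {c : Fin n → Fin r} {p q : Fin r → ℕ}

theorem g2sF : S_g2s := W736.FF.g2s kgs

/-- The generalized Hodge conjecture for products of symmetric powers. -/
theorem ghcSF (hB : T.Big c p q) {s m k j b : ℕ} (d : Fin s → Fin r)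
    (cd : Fin s → ℕ) (a : Fin m → Fin r) (f : Fin m → Fin b)
    (hf : ∀ i i', f i = f i' → a i = a i')
    (W : Submodule ℚ ((Fin m → Fin s ⊕ Fin n) → ℚ))
    (hsym : ∀ w ∈ W, ∀ π : Equiv.Perm (Fin m), (∀ i, f (π i) = f i) →
      ∀ J, w (fun i => J (π i)) = w J)
    (hsub : ∀ w ∈ cspan W, act (T.xS s) w ∈ cspan W)
    (hdeg : ∀ w ∈ W, InDeg c d cd a k w)
    (hp : ∀ w ∈ W, ∀ J, w J ≠ 0 → ∀ i,
      (univ.filter fun x : Fin b => ∃ y z, f y = x ∧ J y = Sum.inr z ∧ c z = i).card ≤ p i)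
    (hlev : ∀ e : ℤ, (k : ℤ) - j < |e| →
      ∀ w ∈ cspan W, act (T.xS s) w = (e : ℂ) • w → w = 0) :
    W ≤ T.coniv2 c d cd a j :=
  ghcS g2sF hB d cd a f hf W hsym hsub hdeg hp hlev

end Pool.Agent.W544.FF
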